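import Mathlib.LinearAlgebra.Eigenspace.Matrix
import Mathlib.Analysis.SpecialFunctions.Sqrt
import Mathlib.Algebra.Order.BigOperators.Ring.Finset
import Mathlib.Combinatorics.Enumerative.DoubleCounting
import Mathlib.Tactic

/-!
The spectrum of the matrix `O` of a coherent configuration is bounded below by `n / (n-1)`.
-/

set_option autoImplicit false
set_option linter.unusedSectionVars false

namespace Pool.Agent.Results.MP_d5c33c_co.SpectrumBound

open Finset

/-- A coherent configuration on the finite set `X`, given by its color map `X × X → S`. The colors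
are the nonempty fibres of `color`; the elements of `S` are the names of the colors. -/
structure CohConf (X S : Type*) [Fintype X] [DecidableEq S] where
  /-- the color of a pair -/
  color : X → X → S
  /-- every color is nonempty -/
  surj : ∀ s, ∃ x y, color x y = s
  /-- the diagonal is a union of colors -/
  diag : ∀ x y z, color y z = color x x → y = z
  /-- the transpose of a color is a color -/
  transp : ∀ x y x' y', color x y = color x' y' → color y x = color y' x'
  /-- the number of `z` with `(x,z) ∈ a`, `(z,y) ∈ b` depends only on the color of `(x,y)` -/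
  inter : ∀ a b x y x' y', color x y = color x' y' →
    (univ.filter fun z => color x z = a ∧ color z y = b).card =
      (univ.filter fun z => color x' z = a ∧ color z y' = b).card

variable {X S : Type*} [Fintype X] [Fintype S] [DecidableEq X] [DecidableEq S]

namespace CohConf

variable (C : CohConf X S)

/-- A pair of color `s`. -/
noncomputable def rep (s : S) : X × X :=
  ((C.surj s).choose, (C.surj s).choose_spec.choose)

theorem rep_spec (s : S) : C.color (C.rep s).1 (C.rep s).2 = s :=
  (C.surj s).choose_spec.choose_spec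

/-- The number of `y` with `(x,y)` of color `s`. -/
def out (x : X) (s : S) : ℕ := (univ.filter fun y => C.color x y = s).card

/-- The valency of a color. -/
noncomputable def val (s : S) : ℕ := C.out (C.rep s).1 s

/-- The structure constant `p^c_{ab}`. -/
noncomputable def p (c a b : S) : ℕ :=
  (univ.filter fun z => C.color (C.rep c).1 z = a ∧ C.color z (C.rep c).2 = b).card

/-- The normalized structure constant `√(k_c / (k_a k_b)) p^c_{ab}`. -/
noncomputable def nab (c a b : S) : ℝ :=
  Real.sqrt ((C.val c : ℝ) / ((C.val a : ℝ) * (C.val b : ℝ))) * (C.p c a b : ℝ)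

/-- The matrix `O`. -/
noncomputable def matO : Matrix S S ℝ :=
  fun a b => ∑ p : S, ∑ q : S, C.nab a p q * C.nab b p q

theorem start_eq {x y x' y' : X} (h : C.color x y = C.color x' y') :
    C.color x x = C.color x' x' := by
  have h1 := C.inter (C.color x x) (C.color x y) x y x' y' h
  have h2 : 0 < (univ.filter fun z => C.color x z = C.color x x ∧
      C.color z y = C.color x y).card := Finset.card_pos.2 ⟨x, by simp⟩
  rw [h1] at h2
  obtain ⟨z, hz⟩ := Finset.card_pos.1 h2
  simp only [Finset.mem_filter, Finset.mem_univ, true_and] at hz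
  have := C.diag _ _ _ hz.1
  rw [← hz.1, ← this]

theorem end_eq {x y x' y' : X} (h : C.color x y = C.color x' y') :
    C.color y y = C.color y' y' := C.start_eq (C.transp _ _ _ _ h)

theorem out_eq_of_diag {x x' : X} (h : C.color x x = C.color x' x') (s : S) :
    C.out x s = C.out x' s := by
  unfold out
  by_cases hs : ∃ y, C.color x y = s ∨ C.color x' y = s
  · obtain ⟨y, hy⟩ := hs
    -- the transposed color
    obtain ⟨t, ht⟩ : ∃ t, ∀ u v, C.color u v = s → C.color v u = t := by
      rcases hy with hy | hy
      · exact ⟨C.color y x, fun u v huv => C.transp _ _ _ _ (huv.trans hy.symm)⟩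
      · exact ⟨C.color y x', fun u v huv => C.transp _ _ _ _ (huv.trans hy.symm)⟩
    have h1 := C.inter s t x x x' x' h
    have e : ∀ u : X, (univ.filter fun z => C.color u z = s ∧ C.color z u = t) =
        univ.filter fun z => C.color u z = s := by
      intro u
      ext z
      simp only [Finset.mem_filter, Finset.mem_univ, true_and, and_iff_left_iff_imp]
      exact ht u z
    rw [e, e] at h1
    exact h1
  · push Not at hs
    rw [Finset.filter_eq_empty_iff.2 (fun y _ => (hs y).1),
      Finset.filter_eq_empty_iff.2 (fun y _ => (hs y).2)]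

theorem out_eq_val {x y : X} {s : S} (h : C.color x y = s) : C.out x s = C.val s :=
  C.out_eq_of_diag (C.start_eq (h.trans (C.rep_spec s).symm)) s

theorem val_pos (s : S) : 0 < C.val s :=
  Finset.card_pos.2 ⟨(C.rep s).2, by simp [C.rep_spec s]⟩

theorem out_zero_or (x : X) (s : S) : C.out x s = 0 ∨ (∃ y, C.color x y = s) := by
  by_cases h : ∃ y, C.color x y = s
  · exact Or.inr h
  · push Not at h
    exact Or.inl (Finset.card_eq_zero.2 (Finset.filter_eq_empty_iff.2 fun y _ => h y))

/-- Double counting of triangles with a fixed first vertex. -/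
theorem count {x z : X} {r : S} (hz : C.color x z = r) (a q : S) :
    (univ.filter fun y => C.color x y = a ∧ C.color z y = q).card * C.val r =
      C.out x a * C.p a r q := by
  classical
  -- each z' of color r from x contributes the same number
  have h1 : ∀ z', C.color x z' = r →
      (univ.filter fun y => C.color x y = a ∧ C.color z' y = q).card =
      (univ.filter fun y => C.color x y = a ∧ C.color z y = q).card := by
    intro z' hz'
    obtain ⟨u, v, huv⟩ := C.surj q
    have e : ∀ w : X, (univ.filter fun y => C.color x y = a ∧ C.color w y = q) =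
        univ.filter fun y => C.color x y = a ∧ C.color y w = C.color v u := by
      intro w
      ext y
      simp only [Finset.mem_filter, Finset.mem_univ, true_and]
      constructor
      · rintro ⟨h1, h2⟩
        exact ⟨h1, C.transp _ _ _ _ (h2.trans huv.symm)⟩
      · rintro ⟨h1, h2⟩
        exact ⟨h1, (C.transp _ _ _ _ h2).trans huv⟩
    rw [e, e]
    exact C.inter _ _ _ _ _ _ (hz'.trans hz.symm)
  have h2 : ∀ y, C.color x y = a →
      (univ.filter fun z' => C.color x z' = r ∧ C.color z' y = q).card = C.p a r q := by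
    intro y hy
    exact C.inter _ _ _ _ _ _ (hy.trans (C.rep_spec a).symm)
  have h3 := Finset.sum_card_bipartiteAbove_eq_sum_card_bipartiteBelow
    (s := univ.filter fun z' => C.color x z' = r) (t := univ.filter fun y => C.color x y = a)
    (fun z' y => C.color z' y = q)
  have h4 : ∀ z' ∈ (univ.filter fun z' => C.color x z' = r),
      (Finset.bipartiteAbove (fun z' y => C.color z' y = q)
        (univ.filter fun y => C.color x y = a) z').card =
      (univ.filter fun y => C.color x y = a ∧ C.color z y = q).card := by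
    intro z' hz'
    rw [← h1 z' (by simpa using hz')]
    simp only [Finset.bipartiteAbove, Finset.filter_filter]
  have h5 : ∀ y ∈ (univ.filter fun y => C.color x y = a),
      (Finset.bipartiteBelow (fun z' y => C.color z' y = q)
        (univ.filter fun z' => C.color x z' = r) y).card = C.p a r q := by
    intro y hy
    rw [← h2 y (by simpa using hy)]
    simp only [Finset.bipartiteBelow, Finset.filter_filter]
  rw [Finset.sum_congr rfl h4, Finset.sum_congr rfl h5, Finset.sum_const, Finset.sum_const,
    smul_eq_mul, smul_eq_mul] at h3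
  have h6 : (univ.filter fun z' => C.color x z' = r).card = C.val r := C.out_eq_val hz
  rw [h6] at h3
  rw [mul_comm, h3]
  rfl

/-- The action of the color `q` on the vector `m`, at the point `z`. -/
noncomputable def act (q : S) (z : X) (m : X → ℝ) : ℝ := ∑ y, if C.color z y = q then m y else 0

/-- The quadratic form `∑_q (1/k_q) ‖A_q m‖²`. -/
noncomputable def form (m : X → ℝ) : ℝ := ∑ z, ∑ q, (C.act q z m) ^ 2 / C.val q

/-- The restriction of `m` to the fibre `s`. -/
noncomputable def restr (s : S) (m : X → ℝ) : X → ℝ := fun y => if C.color y y = s then m y else 0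

theorem act_restr (q : S) (z : X) (m : X → ℝ) (s : S) :
    C.act q z (C.restr s m) =
      if C.color (C.rep q).2 (C.rep q).2 = s then C.act q z m else 0 := by
  unfold act restr
  split_ifs with h
  · refine Finset.sum_congr rfl fun y _ => ?_
    by_cases hy : C.color z y = q
    · rw [if_pos hy, if_pos hy, if_pos]
      rw [← h]
      exact C.end_eq (hy.trans (C.rep_spec q).symm)
    · rw [if_neg hy, if_neg hy]
  · refine Finset.sum_eq_zero fun y _ => ?_
    by_cases hy : C.color z y = q
    · rw [if_pos hy, if_neg]
      intro h2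
      apply h
      rw [← h2]
      exact (C.end_eq (hy.trans (C.rep_spec q).symm)).symm
    · rw [if_neg hy]

theorem form_eq_sum (m : X → ℝ) : C.form m = ∑ s, C.form (C.restr s m) := by
  unfold form
  symm
  rw [Finset.sum_comm]
  refine Finset.sum_congr rfl fun z _ => ?_
  rw [Finset.sum_comm]
  refine Finset.sum_congr rfl fun q _ => ?_
  simp only [act_restr]
  rw [Finset.sum_eq_single (C.color (C.rep q).2 (C.rep q).2)]
  · simp
  · intro b _ hb
    rw [if_neg (Ne.symm hb)]; simp
  · simp

theorem norm_eq_sum (m : X → ℝ) : ∑ y, (m y) ^ 2 = ∑ s, ∑ y, (C.restr s m y) ^ 2 := by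
  rw [Finset.sum_comm]
  refine Finset.sum_congr rfl fun y _ => ?_
  rw [Finset.sum_eq_single (C.color y y)]
  · simp [restr]
  · intro b _ hb
    simp [restr, Ne.symm hb]
  · simp

/-- Cauchy-Schwarz for the colors leaving `z` towards the fibre `s`, the diagonal excluded. -/
theorem cs (m : X → ℝ) (s : S) (z : X) :
    (∑ y ∈ (univ.filter fun y => C.color y y = s).erase z, m y) ^ 2 /
        ((((univ.filter fun y => C.color y y = s).erase z).card : ℕ) : ℝ) ≤
      ∑ q ∈ ((univ.filter fun y => C.color y y = s).erase z).image (C.color z),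
        (C.act q z m) ^ 2 / C.val q := by
  classical
  set Y := (univ.filter fun y => C.color y y = s).erase z with hY
  have hfib : ∀ q ∈ Y.image (C.color z), Y.filter (fun y => C.color z y = q) =
      univ.filter (fun y => C.color z y = q) := by
    intro q hq
    obtain ⟨y0, hy0, hq0⟩ := Finset.mem_image.1 hq
    ext y
    simp only [Finset.mem_filter, Finset.mem_univ, true_and, and_iff_right_iff_imp]
    intro hy
    have hy0' := Finset.mem_erase.1 hy0
    rw [hY, Finset.mem_erase]
    refine ⟨?_, ?_⟩
    · rintro rfl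
      apply hy0'.1
      exact (C.diag y y y0 (hq0.trans hy.symm)).symm
    · simp only [Finset.mem_filter, Finset.mem_univ, true_and] at hy0' ⊢
      rw [← hy0'.2]
      exact C.end_eq (hy.trans hq0.symm)
  have h1 : ∀ q ∈ Y.image (C.color z), C.act q z m = ∑ y ∈ Y.filter (fun y => C.color z y = q), m y := by
    intro q hq
    rw [hfib q hq, act, Finset.sum_filter]
  have h2 : ∑ q ∈ Y.image (C.color z), C.act q z m = ∑ y ∈ Y, m y := by
    rw [Finset.sum_congr rfl h1]
    exact Finset.sum_fiberwise_of_maps_to (fun y hy => Finset.mem_image_of_mem _ hy) _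
  have h3 : ∑ q ∈ Y.image (C.color z), (C.val q : ℝ) = (Y.card : ℝ) := by
    rw [Finset.card_eq_sum_card_image (C.color z) Y]
    push_cast
    refine Finset.sum_congr rfl fun q hq => ?_
    rw [hfib q hq]
    obtain ⟨y0, hy0, hq0⟩ := Finset.mem_image.1 hq
    exact_mod_cast (C.out_eq_val hq0).symm
  have h4 := Finset.sq_sum_div_le_sum_sq_div (Y.image (C.color z)) (fun q => C.act q z m)
    (g := fun q => (C.val q : ℝ)) (fun q _ => by exact_mod_cast C.val_pos q)
  rw [h2, h3] at h4
  exact h4

theorem term_nonneg (q : S) (z : X) (m : X → ℝ) : 0 ≤ (C.act q z m) ^ 2 / C.val q := by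
  positivity

theorem act_diag (z : X) (m : X → ℝ) : C.act (C.color z z) z m = m z := by
  unfold act
  rw [Finset.sum_eq_single z]
  · simp
  · intro y _ hy
    rw [if_neg]
    intro h
    exact hy (C.diag z z y h).symm
  · simp

theorem val_diag (z : X) : C.val (C.color z z) = 1 := by
  rw [← C.out_eq_val (rfl : C.color z z = _)]
  unfold out
  rw [Finset.card_eq_one]
  refine ⟨z, ?_⟩
  ext y
  simp only [Finset.mem_filter, Finset.mem_univ, true_and, Finset.mem_singleton]
  exact ⟨fun h => (C.diag z z y h).symm, fun h => by rw [h]⟩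

/-- The lower bound for a vector supported on one fibre. -/
theorem form_fibre (m : X → ℝ) (s : S) (hm : ∀ y, C.color y y ≠ s → m y = 0)
    (h2 : 2 ≤ Fintype.card X) :
    (Fintype.card X : ℝ) / ((Fintype.card X : ℝ) - 1) * ∑ y, (m y) ^ 2 ≤ C.form m := by
  classical
  set F := univ.filter fun y : X => C.color y y = s with hF
  have hsum : ∀ g : X → ℝ, (∀ y, C.color y y ≠ s → g y = 0) → ∑ y, g y = ∑ y ∈ F, g y := by
    intro g hg
    rw [hF, Finset.sum_filter]
    refine Finset.sum_congr rfl fun y _ => ?_
    split_ifs with h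
    · rfl
    · exact hg y h
  have hn : (2 : ℝ) ≤ Fintype.card X := by exact_mod_cast h2
  set n : ℝ := (Fintype.card X : ℝ) with hnn
  have hm2 : ∑ y, (m y) ^ 2 = ∑ y ∈ F, (m y) ^ 2 := hsum _ fun y hy => by rw [hm y hy]; simp
  -- the lower bound at a point
  have hpt : ∀ z ∈ F, (m z) ^ 2 + (∑ y ∈ F.erase z, m y) ^ 2 / (((F.erase z).card : ℕ) : ℝ) ≤
      ∑ q, (C.act q z m) ^ 2 / C.val q := by
    intro z hz
    have hnot : C.color z z ∉ (F.erase z).image (C.color z) := by
      intro h
      obtain ⟨y, hy, hy'⟩ := Finset.mem_image.1 h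
      exact (Finset.mem_erase.1 hy).1 (C.diag z z y hy').symm
    have h5 : ∑ q ∈ insert (C.color z z) ((F.erase z).image (C.color z)),
        (C.act q z m) ^ 2 / C.val q ≤ ∑ q, (C.act q z m) ^ 2 / C.val q :=
      Finset.sum_le_sum_of_subset_of_nonneg (Finset.subset_univ _)
        fun q _ _ => C.term_nonneg q z m
    rw [Finset.sum_insert hnot, C.act_diag, C.val_diag] at h5
    have h6 := C.cs m s z
    rw [← hF] at h6
    simp only [Nat.cast_one, div_one] at h5
    linarith
  have hpt' : ∀ z, z ∉ F → (∑ y ∈ F, m y) ^ 2 / ((F.card : ℕ) : ℝ) ≤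
      ∑ q, (C.act q z m) ^ 2 / C.val q := by
    intro z hz
    have h6 := C.cs m s z
    rw [← hF, Finset.erase_eq_of_notMem hz] at h6
    exact h6.trans (Finset.sum_le_sum_of_subset_of_nonneg (Finset.subset_univ _)
        fun q _ _ => C.term_nonneg q z m)
  have hform : ∑ z ∈ F, ∑ q, (C.act q z m) ^ 2 / C.val q +
      ∑ z ∈ univ \ F, ∑ q, (C.act q z m) ^ 2 / C.val q = C.form m := by
    unfold form
    rw [add_comm]
    exact Finset.sum_sdiff (Finset.subset_univ F)
  rcases Nat.lt_or_ge F.card 2 with hc | hc
  · rcases Nat.eq_zero_or_pos F.card with h0 | h0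
    · -- empty fibre
      have : F = ∅ := Finset.card_eq_zero.1 h0
      rw [hm2, this]
      simp only [Finset.sum_empty, mul_zero]
      exact Finset.sum_nonneg fun z _ => Finset.sum_nonneg fun q _ => C.term_nonneg q z m
    · -- one point
      have h1 : F.card = 1 := by omega
      obtain ⟨y0, hy0⟩ := Finset.card_eq_one.1 h1
      have hA : (m y0) ^ 2 ≤ ∑ z ∈ F, ∑ q, (C.act q z m) ^ 2 / C.val q := by
        rw [hy0, Finset.sum_singleton]
        have := hpt y0 (by rw [hy0]; simp)
        rw [hy0] at this
        simpa using this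
      have hB : ((Fintype.card X : ℝ) - 1) * (m y0) ^ 2 ≤
          ∑ z ∈ univ \ F, ∑ q, (C.act q z m) ^ 2 / C.val q := by
        have hcard : ((univ \ F).card : ℝ) = (Fintype.card X : ℝ) - 1 := by
          rw [Finset.card_sdiff_of_subset (Finset.subset_univ F), h1, Finset.card_univ,
            Nat.cast_sub (by omega)]
          simp
        rw [← hcard, ← nsmul_eq_mul, ← Finset.sum_const]
        refine Finset.sum_le_sum fun z hz => ?_
        have := hpt' z (Finset.mem_sdiff.1 hz).2
        rw [hy0] at this
        simpa using this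
      rw [hm2, ← hform, hy0, Finset.sum_singleton, ← hy0]
      have hm0 : 0 ≤ (m y0) ^ 2 := sq_nonneg _
      have : n / (n - 1) * (m y0) ^ 2 ≤ n * (m y0) ^ 2 := by
        refine mul_le_mul_of_nonneg_right ?_ hm0
        rw [div_le_iff₀ (by linarith)]
        nlinarith
      rw [← hnn] at hB
      linarith
  · -- at least two points
    set f : ℝ := (F.card : ℝ) with hf
    have hf2 : (2 : ℝ) ≤ f := by rw [hf]; exact_mod_cast hc
    have hfn : f ≤ n := by
      rw [hf, hnn]; exact_mod_cast Finset.card_le_univ F
    set t : ℝ := ∑ y ∈ F, m y with ht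
    have hA : ∑ z ∈ F, ((m z) ^ 2 + (t - m z) ^ 2 / (f - 1)) ≤
        ∑ z ∈ F, ∑ q, (C.act q z m) ^ 2 / C.val q := by
      refine Finset.sum_le_sum fun z hz => ?_
      have := hpt z hz
      rw [Finset.card_erase_of_mem hz, Nat.cast_sub (by omega), ← hf] at this
      have e : ∑ y ∈ F.erase z, m y = t - m z := by
        rw [ht, ← Finset.add_sum_erase F m hz]; ring
      rw [e] at this
      simpa using this
    have hB : 0 ≤ ∑ z ∈ univ \ F, ∑ q, (C.act q z m) ^ 2 / C.val q :=
      Finset.sum_nonneg fun z _ => Finset.sum_nonneg fun q _ => C.term_nonneg q z m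
    have hC : ∑ z ∈ F, ((m z) ^ 2 + (t - m z) ^ 2 / (f - 1)) =
        f / (f - 1) * ∑ z ∈ F, (m z) ^ 2 + (f - 2) * t ^ 2 / (f - 1) := by
      have e1 : ∀ z, (m z) ^ 2 + (t - m z) ^ 2 / (f - 1) =
          f / (f - 1) * (m z) ^ 2 + t ^ 2 / (f - 1) - 2 * t / (f - 1) * m z := by
        intro z
        have : f - 1 ≠ 0 := by linarith
        field_simp
        ring
      simp only [e1]
      rw [Finset.sum_sub_distrib, Finset.sum_add_distrib, ← Finset.mul_sum, ← Finset.mul_sum,
        Finset.sum_const, nsmul_eq_mul, ← hf, ← ht]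
      have : f - 1 ≠ 0 := by linarith
      field_simp
      ring
    have hD : 0 ≤ (f - 2) * t ^ 2 / (f - 1) := by
      apply div_nonneg (mul_nonneg (by linarith) (sq_nonneg _)) (by linarith)
    have hE : n / (n - 1) * ∑ z ∈ F, (m z) ^ 2 ≤ f / (f - 1) * ∑ z ∈ F, (m z) ^ 2 := by
      refine mul_le_mul_of_nonneg_right ?_ (Finset.sum_nonneg fun z _ => sq_nonneg _)
      rw [div_le_div_iff₀ (by linarith) (by linarith)]
      nlinarith
    rw [hm2, ← hform]
    linarith

theorem form_ge (m : X → ℝ) (h2 : 2 ≤ Fintype.card X) :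
    (Fintype.card X : ℝ) / ((Fintype.card X : ℝ) - 1) * ∑ y, (m y) ^ 2 ≤ C.form m := by
  rw [C.form_eq_sum, C.norm_eq_sum, Finset.mul_sum]
  refine Finset.sum_le_sum fun s _ => C.form_fibre _ s ?_ h2
  intro y hy
  simp [restr, hy]

/-- `T_{pq} = ∑_a v_a ∇^a_{pq}`. -/
noncomputable def tens (v : S → ℝ) (r q : S) : ℝ := ∑ a, v a * C.nab a r q

/-- The row of `∑ v_a A_a / √k_a` at `x`. -/
noncomputable def row (v : S → ℝ) (x : X) : X → ℝ :=
  fun y => v (C.color x y) / Real.sqrt (C.val (C.color x y))

theorem act_row (v : S → ℝ) (x z : X) (q : S) :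
    C.act q z (C.row v x) =
      Real.sqrt (C.val q) * C.tens v (C.color x z) q / Real.sqrt (C.val (C.color x z)) := by
  classical
  set r := C.color x z with hr
  have h1 : C.act q z (C.row v x) = ∑ a, v a / Real.sqrt (C.val a) *
      ((univ.filter fun y => C.color x y = a ∧ C.color z y = q).card : ℝ) := by
    unfold act row
    rw [← Finset.sum_filter, ← Finset.sum_fiberwise (univ.filter fun y => C.color z y = q)
      (C.color x)]
    refine Finset.sum_congr rfl fun a _ => ?_
    rw [Finset.filter_filter, Finset.sum_congr (g := fun _ => v a / Real.sqrt (C.val a)) rfl]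
    · rw [Finset.sum_const, nsmul_eq_mul, mul_comm]
      congr 3
      ext y
      simp [and_comm]
    · intro y hy
      simp only [Finset.mem_filter, Finset.mem_univ, true_and] at hy
      rw [hy.2]
  rw [h1, tens, Finset.mul_sum, Finset.sum_div]
  refine Finset.sum_congr rfl fun a _ => ?_
  have hk := C.count hr.symm a q
  have hvr : (0 : ℝ) < C.val r := by exact_mod_cast C.val_pos r
  have hvq : (0 : ℝ) < C.val q := by exact_mod_cast C.val_pos q
  have hva : (0 : ℝ) < C.val a := by exact_mod_cast C.val_pos a
  -- the identity `N * k_r = k_a * p`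
  have hk' : ((univ.filter fun y => C.color x y = a ∧ C.color z y = q).card : ℝ) * C.val r =
      C.val a * C.p a r q := by
    rcases C.out_zero_or x a with h0 | ⟨y, hy⟩
    · -- `a` does not start at `x`
      have hN : (univ.filter fun y => C.color x y = a ∧ C.color z y = q).card = 0 := by
        have : 0 < C.val r := C.val_pos r
        rw [h0, zero_mul] at hk
        rcases Nat.mul_eq_zero.1 hk with h | h
        · exact h
        · omega
      have hP : C.p a r q = 0 := by
        by_contra hne
        obtain ⟨w, hw⟩ := Finset.card_pos.1 (Nat.pos_of_ne_zero hne)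
        simp only [Finset.mem_filter, Finset.mem_univ, true_and] at hw
        have e1 : C.color (C.rep a).1 (C.rep a).1 = C.color x x :=
          C.start_eq (hw.1.trans hr)
        have e2 := C.out_eq_of_diag e1 a
        rw [h0] at e2
        have := C.val_pos a
        unfold val at this
        omega
      rw [hN, hP]; simp
    · rw [C.out_eq_val hy] at hk
      exact_mod_cast hk
  have hN : ((univ.filter fun y => C.color x y = a ∧ C.color z y = q).card : ℝ) =
      C.val a * C.p a r q / C.val r := by
    rw [eq_div_iff hvr.ne', hk']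
  rw [hN, nab, Real.sqrt_div hva.le, Real.sqrt_mul hvr.le]
  have sr := Real.sqrt_pos.2 hvr
  have sq' := Real.sqrt_pos.2 hvq
  have sa := Real.sqrt_pos.2 hva
  have er : (C.val r : ℝ) = Real.sqrt (C.val r) * Real.sqrt (C.val r) :=
    (Real.mul_self_sqrt hvr.le).symm
  have ea : (C.val a : ℝ) = Real.sqrt (C.val a) * Real.sqrt (C.val a) :=
    (Real.mul_self_sqrt hva.le).symm
  generalize Real.sqrt (C.val r) = sR at *
  generalize Real.sqrt (C.val a) = sA at *
  generalize Real.sqrt (C.val q) = sQ at *
  rw [er, ea]
  field_simp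

/-- Weighted summation over all `x` of a sum over the colors starting at `x`. -/
theorem weighted (h : S → ℝ) :
    ∑ x, (1 / ((univ.filter fun x' => C.color x' x' = C.color x x).card : ℝ)) *
      ∑ z, h (C.color x z) / C.val (C.color x z) = ∑ r, h r := by
  classical
  have h1 : ∀ x, ∑ z, h (C.color x z) / C.val (C.color x z) =
      ∑ r, if C.color x x = C.color (C.rep r).1 (C.rep r).1 then h r else 0 := by
    intro x
    rw [← Finset.sum_fiberwise univ (C.color x)]
    refine Finset.sum_congr rfl fun r _ => ?_
    rw [Finset.sum_congr (g := fun _ => h r / C.val r) rfl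
      (fun z hz => by rw [(Finset.mem_filter.1 hz).2]), Finset.sum_const, nsmul_eq_mul]
    have hvr : (0 : ℝ) < C.val r := by exact_mod_cast C.val_pos r
    split_ifs with hx
    · have : (univ.filter fun z => C.color x z = r).card = C.val r := by
        rw [val, ← C.out_eq_of_diag hx r]; rfl
      rw [this]
      field_simp
    · rcases C.out_zero_or x r with h0 | ⟨y, hy⟩
      · unfold out at h0
        rw [h0]; simp
      · exact absurd (C.start_eq (hy.trans (C.rep_spec r).symm)) hx
  simp only [h1, Finset.mul_sum]
  rw [Finset.sum_comm]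
  refine Finset.sum_congr rfl fun r _ => ?_
  set F := univ.filter fun x' => C.color x' x' = C.color (C.rep r).1 (C.rep r).1 with hF
  have h2 : ∀ x, (1 / ((univ.filter fun x' => C.color x' x' = C.color x x).card : ℝ)) *
      (if C.color x x = C.color (C.rep r).1 (C.rep r).1 then h r else 0) =
      if C.color x x = C.color (C.rep r).1 (C.rep r).1 then (1 / (F.card : ℝ)) * h r else 0 := by
    intro x
    split_ifs with hx
    · rw [hF, hx]
    · simp
  simp only [h2]
  rw [← Finset.sum_filter, ← hF, Finset.sum_const, nsmul_eq_mul]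
  have : (0 : ℝ) < F.card := by
    exact_mod_cast Finset.card_pos.2 ⟨(C.rep r).1, by simp [hF]⟩
  field_simp

theorem main_ineq (v : S → ℝ) (h2 : 2 ≤ Fintype.card X) :
    (Fintype.card X : ℝ) / ((Fintype.card X : ℝ) - 1) * ∑ a, (v a) ^ 2 ≤
      ∑ r, ∑ q, (C.tens v r q) ^ 2 := by
  rw [← C.weighted (fun a => (v a) ^ 2), ← C.weighted (fun r => ∑ q, (C.tens v r q) ^ 2),
    Finset.mul_sum]
  refine Finset.sum_le_sum fun x _ => ?_
  have h3 := C.form_ge (C.row v x) h2
  have e1 : ∑ y, (C.row v x y) ^ 2 =
      ∑ z, (v (C.color x z)) ^ 2 / C.val (C.color x z) := by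
    refine Finset.sum_congr rfl fun y _ => ?_
    rw [row, div_pow, Real.sq_sqrt (Nat.cast_nonneg _)]
  have e2 : C.form (C.row v x) =
      ∑ z, (∑ q, (C.tens v (C.color x z) q) ^ 2) / C.val (C.color x z) := by
    unfold form
    refine Finset.sum_congr rfl fun z _ => ?_
    rw [Finset.sum_div]
    refine Finset.sum_congr rfl fun q _ => ?_
    have hvq : (0 : ℝ) < C.val q := by exact_mod_cast C.val_pos q
    rw [act_row, div_pow, mul_pow, Real.sq_sqrt (Nat.cast_nonneg _),
      Real.sq_sqrt (Nat.cast_nonneg _)]
    field_simp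
  rw [e1, e2] at h3
  have hw : (0 : ℝ) ≤ 1 / ((univ.filter fun x' => C.color x' x' = C.color x x).card : ℝ) := by
    positivity
  calc _ = (1 / ((univ.filter fun x' => C.color x' x' = C.color x x).card : ℝ)) *
        ((Fintype.card X : ℝ) / ((Fintype.card X : ℝ) - 1) *
          ∑ z, (v (C.color x z)) ^ 2 / C.val (C.color x z)) := by ring
    _ ≤ _ := mul_le_mul_of_nonneg_left h3 hw

end CohConf

/-- Every eigenvalue of the matrix `O` of a coherent configuration on `n ≥ 2` points is at least
`n / (n-1)`. -/
theorem result : ∀ (X S : Type) [Fintype X] [DecidableEq X] [Fintype S] [DecidableEq S]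
    (C : CohConf X S), 2 ≤ Fintype.card X → ∀ μ : ℝ,
      Module.End.HasEigenvalue (Matrix.toLin' C.matO) μ →
        (Fintype.card X : ℝ) / ((Fintype.card X : ℝ) - 1) ≤ μ := by
  intro X S _ _ _ _ C h2 μ hμ
  obtain ⟨v, hv⟩ := hμ.exists_hasEigenvector
  have hv1 : Matrix.mulVec C.matO v = μ • v := by
    have := hv.apply_eq_smul
    rwa [Matrix.toLin'_apply] at this
  have hv0 : v ≠ 0 := hv.2
  have hq : ∑ r, ∑ q, (C.tens v r q) ^ 2 = μ * ∑ a, (v a) ^ 2 := by
    have h3 : ∑ a, v a * (Matrix.mulVec C.matO v) a = μ * ∑ a, (v a) ^ 2 := by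
      rw [hv1, Finset.mul_sum]
      refine Finset.sum_congr rfl fun a _ => ?_
      simp only [Pi.smul_apply, smul_eq_mul]; ring
    rw [← h3]
    have h4 : ∀ r q, (C.tens v r q) ^ 2 = ∑ a, ∑ b, v a * v b * (C.nab a r q * C.nab b r q) := by
      intro r q
      rw [sq, CohConf.tens, Finset.sum_mul_sum]
      refine Finset.sum_congr rfl fun a _ => Finset.sum_congr rfl fun b _ => ?_
      ring
    simp only [h4]
    have h5 : ∀ a, v a * (Matrix.mulVec C.matO v) a =
        ∑ b, ∑ r, ∑ q, v a * v b * (C.nab a r q * C.nab b r q) := by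
      intro a
      rw [Matrix.mulVec, dotProduct, Finset.mul_sum]
      refine Finset.sum_congr rfl fun b _ => ?_
      rw [CohConf.matO, Finset.sum_mul, Finset.mul_sum]
      refine Finset.sum_congr rfl fun r _ => ?_
      rw [Finset.sum_mul, Finset.mul_sum]
      refine Finset.sum_congr rfl fun q _ => ?_
      ring
    simp only [h5]
    calc ∑ r, ∑ q, ∑ a, ∑ b, v a * v b * (C.nab a r q * C.nab b r q)
        = ∑ r, ∑ a, ∑ q, ∑ b, v a * v b * (C.nab a r q * C.nab b r q) := by
          refine Finset.sum_congr rfl fun r _ => ?_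
          rw [Finset.sum_comm]
      _ = ∑ a, ∑ r, ∑ q, ∑ b, v a * v b * (C.nab a r q * C.nab b r q) := by
          rw [Finset.sum_comm]
      _ = ∑ a, ∑ b, ∑ r, ∑ q, v a * v b * (C.nab a r q * C.nab b r q) := by
          refine Finset.sum_congr rfl fun a _ => ?_
          calc ∑ r, ∑ q, ∑ b, v a * v b * (C.nab a r q * C.nab b r q)
              = ∑ r, ∑ b, ∑ q, v a * v b * (C.nab a r q * C.nab b r q) := by
                refine Finset.sum_congr rfl fun r _ => ?_
                rw [Finset.sum_comm]
            _ = _ := by rw [Finset.sum_comm]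
  have hmain := C.main_ineq v h2
  rw [hq] at hmain
  have hpos : 0 < ∑ a, (v a) ^ 2 := by
    obtain ⟨a, ha⟩ : ∃ a, v a ≠ 0 := by
      by_contra hne
      push Not at hne
      exact hv0 (funext hne)
    exact Finset.sum_pos' (fun a _ => sq_nonneg _) ⟨a, Finset.mem_univ _, by positivity⟩
  exact le_of_mul_le_mul_right hmain hpos

end Pool.Agent.Results.MP_d5c33c_co.SpectrumBound
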